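import Pool.Agent.Helper70.QCM.Cut

/-!
# PART M, module CHR: the chain rule `F ∘ w`, `F` smooth on an open set
-/

open Pool.Agent.Helper68.QC
open MeasureTheory Set Filter Topology Complex
open scoped ContDiff ComplexConjugate ENNReal

namespace Pool.Agent.Helper70.QCM

theorem contOn_dz {W : Set ℂ} {F : ℂ → ℂ} (hW : IsOpen W) (hF : ContDiffOn ℝ ∞ F W) :
    ContinuousOn (dz F) W ∧ ContinuousOn (dzb F) W := by
  have hF1 : ContDiffOn ℝ 1 F W := hF.of_le (by simp)
  have hd : ∀ v : ℂ, ContinuousOn (fun z => fderiv ℝ F z v) W := fun v =>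
    (hF1.continuousOn_fderiv_of_isOpen hW le_rfl).clm_apply continuousOn_const
  exact ⟨((hd 1).sub (continuousOn_const.mul (hd I))).div_const 2,
    ((hd 1).add (continuousOn_const.mul (hd I))).div_const 2⟩

theorem pCHR (hAPX : StAPX) (hTRI : StTRI) : Pool.Agent.Helper68.QC.StCHR := by
  intro U W w a b F hU hW hwd hm hF
  obtain ⟨cz, czb⟩ := contOn_dz hW hF
  have l2 : ∀ r s : ℂ → ℂ, L2 U r → L2 U s → L2 U (fun z => dz F (w z) * r z + dzb F (w z) * conj (s z)) := by
    intro r s hr hs K hKU hK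
    have hwK : ContinuousOn w K := hwd.cont.mono hKU
    have hmK : MapsTo w K W := fun z hz => hm (hKU hz)
    exact (memLp_cont_mul hK (cz.comp hwK hmK) (hr K hKU hK)).add
      (memLp_cont_mul hK (czb.comp hwK hmK) (memLp_conj (hs K hKU hK)))
  have key : ∀ φ, Tst U φ →
      (∫ z, F (w z) * dz φ z = - ∫ z, (dz F (w z) * a z + dzb F (w z) * conj (b z)) * φ z) ∧
      (∫ z, F (w z) * dzb φ z = - ∫ z, (dz F (w z) * b z + dzb F (w z) * conj (a z)) * φ z) := by
    intro φ hφ
    have hK : IsCompact (tsupport φ) := hφ.cpt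
    have hwK : ContinuousOn w (tsupport φ) := hwd.cont.mono hφ.sub
    have hK' : IsCompact (w '' tsupport φ) := hK.image_of_continuousOn hwK
    have hK'W : w '' tsupport φ ⊆ W := by
      rintro _ ⟨z, hz, rfl⟩
      exact hm (hφ.sub hz)
    obtain ⟨χ, hχ, N, hN, hKN, hNW, hN1⟩ := cutoff W hW _ hK' hK'W
    have hG := tst_mul_on hW hχ hF
    set G : ℂ → ℂ := fun z => χ z * F z with hGdef
    have hGF : ∀ z ∈ tsupport φ, G =ᶠ[𝓝 (w z)] F := by
      intro z hz
      filter_upwards [hN.mem_nhds (hKN ⟨z, hz, rfl⟩)] with y hy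
      rw [hGdef]
      simp only
      rw [hN1 y hy, one_mul]
    obtain ⟨g, hgs, hgu, hga, hgb⟩ := hAPX U w a b hU hwd (tsupport φ) hφ.sub hK
    have hφ0 : ∀ z, z ∉ tsupport φ → φ z = 0 := fun z hz => image_eq_zero_of_notMem_tsupport hz
    have hdφ0 : ∀ z, z ∉ tsupport φ → dz φ z = 0 := fun z hz => dz_eq_zero hz
    have hdbφ0 : ∀ z, z ∉ tsupport φ → dzb φ z = 0 := fun z hz => dzb_eq_zero hz
    have uc : ∀ h : ℂ → ℂ, Tst W h → UniformContinuous h := fun h hh =>
      hh.cpt.uniformContinuous_of_continuous hh.continuous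
    have hdiff : ∀ n, Differentiable ℝ (g n) := fun n => (hgs n).differentiable (by simp)
    have hcomp : ∀ n, ContDiff ℝ ∞ (fun z => G (g n z)) := fun n => hG.smooth.comp (hgs n)
    have haK := hwd.l2a (tsupport φ) hφ.sub hK
    have hbK := hwd.l2b (tsupport φ) hφ.sub hK
    have c1 := core hTRI (tsupport φ) hK φ (dz φ) hφ.continuous (continuous_dz hφ.smooth) hφ0 hdφ0 G (dz G) (dzb G)
      (uc G hG) (uc _ hG.hdz) (uc _ hG.hdzb) g w (fun n => (hgs n).continuous) hwK hgu (fun n => dz (g n))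
      (fun n => dzb (g n)) a b (fun n => continuous_dz (hgs n)) (fun n => continuous_dzb (hgs n)) haK hbK hga hgb
      (fun n => by
        rw [ibp_dz (hcomp n) hφ]
        congr 1
        refine integral_congr_ae (ae_of_all _ fun z => ?_)
        simp only
        rw [dz_comp (hG.differentiable _) (hdiff n z)])
    have c2 := core hTRI (tsupport φ) hK φ (dzb φ) hφ.continuous (continuous_dzb hφ.smooth) hφ0 hdbφ0 G (dz G) (dzb G)
      (uc G hG) (uc _ hG.hdz) (uc _ hG.hdzb) g w (fun n => (hgs n).continuous) hwK hgu (fun n => dzb (g n))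
      (fun n => dz (g n)) b a (fun n => continuous_dzb (hgs n)) (fun n => continuous_dz (hgs n)) hbK haK hgb hga
      (fun n => by
        rw [ibp_dzb (hcomp n) hφ]
        congr 1
        refine integral_congr_ae (ae_of_all _ fun z => ?_)
        simp only
        rw [dzb_comp (hG.differentiable _) (hdiff n z)])
    have r0 : ∀ (s : ℂ → ℂ), (∀ z, z ∉ tsupport φ → s z = 0) → ∫ z, G (w z) * s z = ∫ z, F (w z) * s z := by
      intro s hs
      refine integral_congr_ae (ae_of_all _ fun z => ?_)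
      simp only
      by_cases hz : z ∈ tsupport φ
      · rw [(hGF z hz).eq_of_nhds]
      · rw [hs z hz, mul_zero, mul_zero]
    have r1 : ∀ (r s : ℂ → ℂ), ∫ z, (dz G (w z) * r z + dzb G (w z) * conj (s z)) * φ z =
        ∫ z, (dz F (w z) * r z + dzb F (w z) * conj (s z)) * φ z := by
      intro r s
      refine integral_congr_ae (ae_of_all _ fun z => ?_)
      simp only
      by_cases hz : z ∈ tsupport φ
      · rw [dz_congr (hGF z hz), dzb_congr (hGF z hz)]
      · rw [hφ0 z hz, mul_zero, mul_zero]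
    rw [r0 _ hdφ0, r1] at c1
    rw [r0 _ hdbφ0, r1] at c2
    exact ⟨c1, c2⟩
  exact ⟨hF.continuousOn.comp hwd.cont hm, l2 a b hwd.l2a hwd.l2b, l2 b a hwd.l2b hwd.l2a,
    fun φ hφ => (key φ hφ).1, fun φ hφ => (key φ hφ).2⟩

end Pool.Agent.Helper70.QCM
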