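import Pool.Agent.Helper70.QCM.Cut

/-!
# PART M, module IBP: integration by parts for the bracket
-/

open Pool.Agent.Helper68.QC
open MeasureTheory Set Filter Topology Complex
open scoped ContDiff ComplexConjugate ENNReal

namespace Pool.Agent.Helper70.QCM

theorem tuo_mul {K : Set ℂ} (hK : IsCompact K) {F G : ℕ → ℂ → ℂ} {f g : ℂ → ℂ} (hf : ContinuousOn f K)
    (hg : ContinuousOn g K) (hF : TendstoUniformlyOn F f atTop K) (hG : TendstoUniformlyOn G g atTop K) :
    TendstoUniformlyOn (fun n z => F n z * G n z) (fun z => f z * g z) atTop K := by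
  obtain ⟨C, hC⟩ := hK.exists_bound_of_continuousOn hf
  obtain ⟨D, hD⟩ := hK.exists_bound_of_continuousOn hg
  rw [Metric.tendstoUniformlyOn_iff] at hF hG ⊢
  intro ε hε
  set M : ℝ := |C| + |D| + 2 with hM
  have hM0 : 0 < M := by positivity
  set δ : ℝ := min 1 (ε / M / 2) with hδ
  have hδ0 : 0 < δ := by
    rw [hδ]
    positivity
  filter_upwards [hF δ hδ0, hG δ hδ0] with n h1 h2 z hz
  have a1 := h1 z hz
  have a2 := h2 z hz
  rw [dist_eq_norm] at a1 a2 ⊢
  have e : f z * g z - F n z * G n z = (f z - F n z) * g z + (f z - (f z - F n z)) * (g z - G n z) := by ring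
  have b1 : ‖f z‖ ≤ |C| := (hC z hz).trans (le_abs_self _)
  have b2 : ‖g z‖ ≤ |D| := (hD z hz).trans (le_abs_self _)
  have hδ1 : δ ≤ 1 := min_le_left _ _
  have hδ2 : δ ≤ ε / M / 2 := min_le_right _ _
  have b3 : ‖f z - (f z - F n z)‖ ≤ |C| + 1 := by
    refine (norm_sub_le _ _).trans ?_
    linarith
  rw [e]
  calc ‖(f z - F n z) * g z + (f z - (f z - F n z)) * (g z - G n z)‖
      ≤ ‖f z - F n z‖ * ‖g z‖ + ‖f z - (f z - F n z)‖ * ‖g z - G n z‖ := by
        refine (norm_add_le _ _).trans ?_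
        rw [norm_mul, norm_mul]
    _ ≤ δ * |D| + (|C| + 1) * δ := by
        refine add_le_add (mul_le_mul a1.le b2 (norm_nonneg _) hδ0.le) ?_
        exact mul_le_mul b3 a2.le (norm_nonneg _) (by positivity)
    _ = δ * (M - 1) := by rw [hM]; ring
    _ ≤ (ε / M / 2) * (M - 1) := by
        refine mul_le_mul_of_nonneg_right hδ2 ?_
        rw [hM]
        have := abs_nonneg C
        have := abs_nonneg D
        linarith
    _ < ε := by
        have h3 : (ε / M / 2) * (M - 1) ≤ (ε / M / 2) * M := by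
          refine mul_le_mul_of_nonneg_left (by linarith) (by positivity)
        have h4 : (ε / M / 2) * M = ε / 2 := by field_simp
        linarith

theorem tuo_const {K : Set ℂ} (f : ℂ → ℂ) : TendstoUniformlyOn (fun (_ : ℕ) z => f z) f atTop K := by
  rw [Metric.tendstoUniformlyOn_iff]
  intro ε hε
  refine Eventually.of_forall fun n z _ => ?_
  rw [dist_self]
  exact hε

theorem int3 {K : Set ℂ} (hK : IsCompact K) {F A B : ℂ → ℂ} (hF : ContinuousOn F K)
    (hA : MemLp A 2 (volume.restrict K)) (hB : MemLp B 2 (volume.restrict K)) :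
    IntegrableOn (fun z => F z * A z * B z) K volume :=
  (memLp_cont_mul hK hF hA).integrable_mul hB

/-- the six terms -/
noncomputable def SS (K : Set ℂ) (χ f af bf u au bu av bv : ℂ → ℂ) : ℂ :=
  (∫ z in K, (χ z * f z) * au z * bv z) - (∫ z in K, (χ z * f z) * bu z * av z) +
  (∫ z in K, (χ z * u z) * af z * bv z) - (∫ z in K, (χ z * u z) * bf z * av z) +
  (∫ z in K, (f z * u z) * dz χ z * bv z) - (∫ z in K, (f z * u z) * dzb χ z * av z)

theorem split {K : Set ℂ} (hK : IsCompact K) {χ f af bf u au bu av bv : ℂ → ℂ} (hχ : ContDiff ℝ ∞ χ)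
    (hχ0 : ∀ z, z ∉ K → χ z = 0) (hdχ0 : ∀ z, z ∉ K → dz χ z = 0) (hdbχ0 : ∀ z, z ∉ K → dzb χ z = 0)
    (hf : ContinuousOn f K) (hu : ContinuousOn u K) (haf : MemLp af 2 (volume.restrict K))
    (hbf : MemLp bf 2 (volume.restrict K)) (hau : MemLp au 2 (volume.restrict K))
    (hbu : MemLp bu 2 (volume.restrict K)) (hav : MemLp av 2 (volume.restrict K))
    (hbv : MemLp bv 2 (volume.restrict K)) :
    (∫ z, χ z * (f z * (au z * bv z - bu z * av z) + u z * (af z * bv z - bf z * av z))) +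
      (∫ z, f z * u z * (dz χ z * bv z - dzb χ z * av z)) = SS K χ f af bf u au bu av bv := by
  have hχc : ContinuousOn χ K := hχ.continuous.continuousOn
  have hcz : MemLp (dz χ) 2 (volume.restrict K) := memLp_cont hK (continuous_dz hχ).continuousOn
  have hczb : MemLp (dzb χ) 2 (volume.restrict K) := memLp_cont hK (continuous_dzb hχ).continuousOn
  have cf : ContinuousOn (fun z => χ z * f z) K := hχc.mul hf
  have cu : ContinuousOn (fun z => χ z * u z) K := hχc.mul hu
  have cfu : ContinuousOn (fun z => f z * u z) K := hf.mul hu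
  have i1 := int3 hK cf hau hbv
  have i2 := int3 hK cf hbu hav
  have i3 := int3 hK cu haf hbv
  have i4 := int3 hK cu hbf hav
  have i5 := int3 hK cfu hcz hbv
  have i6 := int3 hK cfu hczb hav
  have e1 : ∫ z, χ z * (f z * (au z * bv z - bu z * av z) + u z * (af z * bv z - bf z * av z)) =
      ∫ z in K, (((χ z * f z) * au z * bv z - (χ z * f z) * bu z * av z) +
        ((χ z * u z) * af z * bv z - (χ z * u z) * bf z * av z)) := by
    rw [← int_on (S := K) (fun z hz => by rw [hχ0 z hz, zero_mul])]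
    refine integral_congr_ae (ae_of_all _ fun z => ?_)
    simp only
    ring
  have e2 : ∫ z, f z * u z * (dz χ z * bv z - dzb χ z * av z) =
      ∫ z in K, ((f z * u z) * dz χ z * bv z - (f z * u z) * dzb χ z * av z) := by
    rw [← int_on (S := K) (fun z hz => by rw [hdχ0 z hz, hdbχ0 z hz]; ring)]
    refine integral_congr_ae (ae_of_all _ fun z => ?_)
    simp only
    ring
  rw [e1, e2]
  have e3 : ∫ z in K, (((χ z * f z) * au z * bv z - (χ z * f z) * bu z * av z) +
        ((χ z * u z) * af z * bv z - (χ z * u z) * bf z * av z)) =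
      ((∫ z in K, (χ z * f z) * au z * bv z) - (∫ z in K, (χ z * f z) * bu z * av z)) +
      ((∫ z in K, (χ z * u z) * af z * bv z) - (∫ z in K, (χ z * u z) * bf z * av z)) := by
    have j1 : IntegrableOn (fun z => (χ z * f z) * au z * bv z - (χ z * f z) * bu z * av z) K volume := i1.sub i2
    have j2 : IntegrableOn (fun z => (χ z * u z) * af z * bv z - (χ z * u z) * bf z * av z) K volume := i3.sub i4
    rw [integral_add j1 j2, integral_sub i1 i2, integral_sub i3 i4]
  have e4 : ∫ z in K, ((f z * u z) * dz χ z * bv z - (f z * u z) * dzb χ z * av z) =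
      (∫ z in K, (f z * u z) * dz χ z * bv z) - (∫ z in K, (f z * u z) * dzb χ z * av z) := by
    rw [integral_sub i5 i6]
  rw [e3, e4]
  unfold SS
  ring

theorem smooth_ibp {U : Set ℂ} {χ f u v : ℂ → ℂ} (hχ : Tst U χ) (hf : ContDiff ℝ ∞ f) (hu : ContDiff ℝ ∞ u)
    (hv : ContDiff ℝ ∞ v) :
    (∫ z, χ z * (f z * (dz u z * dzb v z - dzb u z * dz v z) + u z * (dz f z * dzb v z - dzb f z * dz v z))) +
      (∫ z, f z * u z * (dz χ z * dzb v z - dzb χ z * dz v z)) = 0 := by
  have hT : Tst U (fun z => χ z * (f z * u z)) := hχ.mul_right (hf.mul hu)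
  have h0 := integral_bracket hT hv
  have hT1 : Tst U (fun z => χ z * (f z * (dz u z * dzb v z - dzb u z * dz v z) +
      u z * (dz f z * dzb v z - dzb f z * dz v z))) := by
    refine hχ.mul_right ?_
    exact (hf.mul (((contDiff_dz hu).mul (contDiff_dzb hv)).sub ((contDiff_dzb hu).mul (contDiff_dz hv)))).add
      (hu.mul (((contDiff_dz hf).mul (contDiff_dzb hv)).sub ((contDiff_dzb hf).mul (contDiff_dz hv))))
  have hT2 : Tst U (fun z => f z * u z * (dz χ z * dzb v z - dzb χ z * dz v z)) := by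
    have h1 := (hχ.hdz.mul_right (contDiff_dzb hv)).add
      ((hχ.hdzb.mul_right ((contDiff_dz hv).neg)))
    have h2 := h1.mul_left (hf.mul hu)
    have e : (fun z => f z * u z * (dz χ z * dzb v z - dzb χ z * dz v z)) =
        fun z => f z * u z * (dz χ z * dzb v z + dzb χ z * -dz v z) := by
      ext z
      ring
    rw [e]
    exact h2
  rw [← integral_add hT1.integrable hT2.integrable, ← h0]
  refine integral_congr_ae (ae_of_all _ fun z => ?_)
  simp only
  have df := hf.differentiable (by simp) z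
  have du := hu.differentiable (by simp) z
  have dfu : DifferentiableAt ℝ (fun x => f x * u x) z := df.mul du
  rw [dz_mul (hχ.differentiable z) dfu, dzb_mul (hχ.differentiable z) dfu, dz_mul df du, dzb_mul df du]
  ring

theorem pIBP (hAPX : StAPX) (hTRI : StTRI) : Pool.Agent.Helper68.QC.StIBP := by
  intro U f af bf u au bu v av bv χ hU hf hu hv hχ
  have hK : IsCompact (tsupport χ) := hχ.cpt
  obtain ⟨F, Fs, Fu, Fa, Fb⟩ := hAPX U f af bf hU hf (tsupport χ) hχ.sub hK
  obtain ⟨G, Gs, Gu, Ga, Gb⟩ := hAPX U u au bu hU hu (tsupport χ) hχ.sub hK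
  obtain ⟨H, Hs, Hu, Ha, Hb⟩ := hAPX U v av bv hU hv (tsupport χ) hχ.sub hK
  have hfK := hf.cont.mono hχ.sub
  have huK := hu.cont.mono hχ.sub
  have haf := hf.l2a _ hχ.sub hK
  have hbf := hf.l2b _ hχ.sub hK
  have hau := hu.l2a _ hχ.sub hK
  have hbu := hu.l2b _ hχ.sub hK
  have hav := hv.l2a _ hχ.sub hK
  have hbv := hv.l2b _ hχ.sub hK
  have hχ0 : ∀ z, z ∉ tsupport χ → χ z = 0 := fun z hz => image_eq_zero_of_notMem_tsupport hz
  have hdχ0 : ∀ z, z ∉ tsupport χ → dz χ z = 0 := fun z hz => dz_eq_zero hz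
  have hdbχ0 : ∀ z, z ∉ tsupport χ → dzb χ z = 0 := fun z hz => dzb_eq_zero hz
  have hχc : ContinuousOn χ (tsupport χ) := hχ.continuous.continuousOn
  have mc : ∀ h : ℂ → ℂ, Continuous h → MemLp h 2 (volume.restrict (tsupport χ)) :=
    fun h hh => memLp_cont hK hh.continuousOn
  have hconst : ∀ s : ℂ → ℂ, Tendsto (fun _ : ℕ => eLpNorm (fun z => s z - s z) 2
      (volume.restrict (tsupport χ))) atTop (𝓝 0) := by
    intro s
    simp
  have hsm : ∀ n, SS (tsupport χ) χ (F n) (dz (F n)) (dzb (F n)) (G n) (dz (G n)) (dzb (G n)) (dz (H n))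
      (dzb (H n)) = 0 := by
    intro n
    rw [← split hK hχ.smooth hχ0 hdχ0 hdbχ0 (Fs n).continuous.continuousOn (Gs n).continuous.continuousOn
      (mc _ (continuous_dz (Fs n))) (mc _ (continuous_dzb (Fs n))) (mc _ (continuous_dz (Gs n)))
      (mc _ (continuous_dzb (Gs n))) (mc _ (continuous_dz (Hs n))) (mc _ (continuous_dzb (Hs n)))]
    exact smooth_ibp hχ (Fs n) (Gs n) (Hs n)
  have uF := tuo_mul hK hχc hfK (tuo_const χ) Fu
  have uG := tuo_mul hK hχc huK (tuo_const χ) Gu
  have uFG := tuo_mul hK hfK huK Fu Gu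
  have cF : ∀ n, ContinuousOn (fun z => χ z * F n z) (tsupport χ) := fun n =>
    (hχ.continuous.mul (Fs n).continuous).continuousOn
  have cG : ∀ n, ContinuousOn (fun z => χ z * G n z) (tsupport χ) := fun n =>
    (hχ.continuous.mul (Gs n).continuous).continuousOn
  have cFG : ∀ n, ContinuousOn (fun z => F n z * G n z) (tsupport χ) := fun n =>
    ((Fs n).continuous.mul (Gs n).continuous).continuousOn
  have dF := fun n => mc _ (continuous_dz (Fs n))
  have dbF := fun n => mc _ (continuous_dzb (Fs n))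
  have dG := fun n => mc _ (continuous_dz (Gs n))
  have dbG := fun n => mc _ (continuous_dzb (Gs n))
  have dH := fun n => mc _ (continuous_dz (Hs n))
  have dbH := fun n => mc _ (continuous_dzb (Hs n))
  have hcz := mc _ (continuous_dz hχ.smooth)
  have hczb := mc _ (continuous_dzb hχ.smooth)
  have t1 := hTRI _ _ _ _ _ _ _ hK cF (hχc.mul hfK) uF dG hau dbH hbv Ga Hb
  have t2 := hTRI _ _ _ _ _ _ _ hK cF (hχc.mul hfK) uF dbG hbu dH hav Gb Ha
  have t3 := hTRI _ _ _ _ _ _ _ hK cG (hχc.mul huK) uG dF haf dbH hbv Fa Hb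
  have t4 := hTRI _ _ _ _ _ _ _ hK cG (hχc.mul huK) uG dbF hbf dH hav Fb Ha
  have t5 := hTRI _ _ (fun _ => dz χ) _ _ _ _ hK cFG (hfK.mul huK) uFG (fun _ => hcz) hcz dbH hbv (hconst _) Hb
  have t6 := hTRI _ _ (fun _ => dzb χ) _ _ _ _ hK cFG (hfK.mul huK) uFG (fun _ => hczb) hczb dH hav (hconst _) Ha
  have hlim : Tendsto (fun n => SS (tsupport χ) χ (F n) (dz (F n)) (dzb (F n)) (G n) (dz (G n)) (dzb (G n))
      (dz (H n)) (dzb (H n))) atTop (𝓝 (SS (tsupport χ) χ f af bf u au bu av bv)) := by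
    unfold SS
    exact (((((t1.sub t2).add t3).sub t4).add t5).sub t6)
  have hz : SS (tsupport χ) χ f af bf u au bu av bv = 0 := by
    refine tendsto_nhds_unique hlim ?_
    simp only [hsm]
    exact tendsto_const_nhds
  have hfin := split hK hχ.smooth hχ0 hdχ0 hdbχ0 hfK huK haf hbf hau hbu hav hbv
  rw [hz] at hfin
  exact eq_neg_of_add_eq_zero_left hfin

end Pool.Agent.Helper70.QCM
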