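import Pool.Agent.Helper68.QC.St2

/-!
# PART M, module PRW: composition with a conformal map on the right
-/

open Pool.Agent.Helper68.QC
open MeasureTheory Set Filter Topology Complex
open scoped ContDiff ComplexConjugate ENNReal

namespace Pool.Agent.Helper70.QCM

section conf

variable {V : Set ℂ} {φ : ℂ → ℂ}

theorem map_nhds' (hV : IsOpen V) (hd : DifferentiableOn ℂ φ V) (h0 : ∀ z ∈ V, deriv φ z ≠ 0) (z : ℂ) (hz : z ∈ V) :
    map φ (𝓝 z) = 𝓝 (φ z) := by
  have h1 : AnalyticAt ℂ φ z := hd.analyticAt (hV.mem_nhds hz)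
  exact h1.hasStrictDerivAt.map_nhds_eq (h0 z hz)

theorem img_nhds (hV : IsOpen V) (hd : DifferentiableOn ℂ φ V) (h0 : ∀ z ∈ V, deriv φ z ≠ 0) (z : ℂ) (hz : z ∈ V)
    (N : Set ℂ) (hN : N ∈ 𝓝 z) : φ '' N ∈ 𝓝 (φ z) := by
  rw [← map_nhds' hV hd h0 z hz]
  exact image_mem_map hN

theorem img_open (hV : IsOpen V) (hd : DifferentiableOn ℂ φ V) (h0 : ∀ z ∈ V, deriv φ z ≠ 0) : IsOpen (φ '' V) := by
  rw [isOpen_iff_mem_nhds]
  rintro _ ⟨z, hz, rfl⟩
  exact img_nhds hV hd h0 z hz V (hV.mem_nhds hz)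

/-- the inverse -/
noncomputable def th (V : Set ℂ) (φ : ℂ → ℂ) : ℂ → ℂ := Function.invFunOn φ V

theorem th_left (hi : InjOn φ V) (z : ℂ) (hz : z ∈ V) : th V φ (φ z) = z :=
  hi.leftInvOn_invFunOn hz

theorem th_mem (y : ℂ) (hy : y ∈ φ '' V) : th V φ y ∈ V := Function.invFunOn_mem hy

theorem th_right (y : ℂ) (hy : y ∈ φ '' V) : φ (th V φ y) = y := Function.invFunOn_eq hy

theorem th_diff (hV : IsOpen V) (hd : DifferentiableOn ℂ φ V) (hi : InjOn φ V) (h0 : ∀ z ∈ V, deriv φ z ≠ 0) :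
    DifferentiableOn ℂ (th V φ) (φ '' V) := by
  rintro _ ⟨z, hz, rfl⟩
  have hc : ContinuousAt (th V φ) (φ z) := by
    rw [ContinuousAt, th_left hi z hz]
    intro N hN
    have h1 : φ '' (N ∩ V) ∈ 𝓝 (φ z) := img_nhds hV hd h0 z hz _ (inter_mem hN (hV.mem_nhds hz))
    refine mem_map.2 (mem_of_superset h1 ?_)
    rintro _ ⟨x, hx, rfl⟩
    rw [mem_preimage, th_left hi x hx.2]
    exact hx.1
  have h1 : HasDerivAt φ (deriv φ z) (th V φ (φ z)) := by
    rw [th_left hi z hz]
    exact (hd.differentiableAt (hV.mem_nhds hz)).hasDerivAt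
  have h2 : ∀ᶠ y in 𝓝 (φ z), φ (th V φ y) = y := by
    filter_upwards [(img_open hV hd h0).mem_nhds ⟨z, hz, rfl⟩] with y hy
    exact th_right y hy
  exact (h1.of_local_left_inverse hc (h0 z hz) h2).differentiableAt.differentiableWithinAt

theorem smooth_of_holo {W : Set ℂ} {g : ℂ → ℂ} (hW : IsOpen W) (hg : DifferentiableOn ℂ g W) : ContDiffOn ℝ ∞ g W :=
  (hg.contDiffOn hW).restrict_scalars ℝ

/-- transport of a test function -/
noncomputable def push (V : Set ℂ) (φ χ : ℂ → ℂ) : ℂ → ℂ :=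
  open Classical in fun ζ => if ζ ∈ φ '' V then χ (th V φ ζ) else 0

theorem push_apply (hi : InjOn φ V) (χ : ℂ → ℂ) (z : ℂ) (hz : z ∈ V) : push V φ χ (φ z) = χ z := by
  unfold push
  rw [if_pos ⟨z, hz, rfl⟩, th_left hi z hz]

theorem push_tst (hV : IsOpen V) (hd : DifferentiableOn ℂ φ V) (hi : InjOn φ V) (h0 : ∀ z ∈ V, deriv φ z ≠ 0)
    (χ : ℂ → ℂ) (hχ : Tst V χ) : Tst (φ '' V) (push V φ χ) := by
  have hS : IsCompact (φ '' tsupport χ) := hχ.cpt.image_of_continuousOn (hd.continuousOn.mono hχ.sub)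
  have hsupp : ∀ ζ, ζ ∉ φ '' tsupport χ → push V φ χ ζ = 0 := by
    intro ζ hζ
    unfold push
    split_ifs with h
    · obtain ⟨z, hz, rfl⟩ := h
      rw [th_left hi z hz]
      exact image_eq_zero_of_notMem_tsupport (fun h => hζ ⟨z, h, rfl⟩)
    · rfl
  have hts : tsupport (push V φ χ) ⊆ φ '' tsupport χ :=
    closure_minimal (fun ζ hζ => by
      by_contra h
      exact hζ (hsupp ζ h)) hS.isClosed
  refine ⟨?_, HasCompactSupport.intro hS (fun ζ hζ => hsupp ζ hζ), hts.trans (image_mono hχ.sub)⟩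
  rw [contDiff_iff_contDiffAt]
  intro ζ
  by_cases hζ : ζ ∈ φ '' tsupport χ
  · have hY : φ '' V ∈ 𝓝 ζ := (img_open hV hd h0).mem_nhds (image_mono hχ.sub hζ)
    have h1 : ContDiffAt ℝ ∞ (th V φ) ζ := (smooth_of_holo (img_open hV hd h0) (th_diff hV hd hi h0)).contDiffAt hY
    have h2 : ContDiffAt ℝ ∞ (fun y => χ (th V φ y)) ζ := hχ.smooth.contDiffAt.comp ζ h1
    refine h2.congr_of_eventuallyEq ?_
    filter_upwards [hY] with y hy
    unfold push
    rw [if_pos hy]
  · have h1 : push V φ χ =ᶠ[𝓝 ζ] fun _ => 0 := by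
      filter_upwards [hS.isClosed.isOpen_compl.mem_nhds hζ] with y hy
      exact hsupp y hy
    exact contDiffAt_const.congr_of_eventuallyEq h1

theorem tst_mul_on {ψ k : ℂ → ℂ} (hV : IsOpen V) (hψ : Tst V ψ) (hk : ContDiffOn ℝ ∞ k V) :
    Tst V (fun z => ψ z * k z) := by
  have hsub : tsupport (fun z => ψ z * k z) ⊆ tsupport ψ :=
    closure_mono (fun z hz => by
      intro h
      apply hz
      show ψ z * k z = 0
      rw [h, zero_mul])
  refine ⟨?_, hψ.cpt.mul_right, hsub.trans hψ.sub⟩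
  rw [contDiff_iff_contDiffAt]
  intro z
  by_cases hz : z ∈ tsupport ψ
  · exact hψ.smooth.contDiffAt.mul (hk.contDiffAt (hV.mem_nhds (hψ.sub hz)))
  · have h0 : ψ =ᶠ[𝓝 z] 0 := notMem_tsupport_iff_eventuallyEq.1 hz
    have h1 : (fun z => ψ z * k z) =ᶠ[𝓝 z] fun _ => 0 := by
      filter_upwards [h0] with x hx
      rw [hx]
      simp
    exact contDiffAt_const.congr_of_eventuallyEq h1

/-- the derivative of `φ` -/
theorem deriv_diff (hV : IsOpen V) (hd : DifferentiableOn ℂ φ V) : DifferentiableOn ℂ (deriv φ) V := hd.deriv hV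

theorem det_phi (hV : IsOpen V) (hd : DifferentiableOn ℂ φ V) (z : ℂ) (hz : z ∈ V) :
    |(fderiv ℝ φ z).det| = ‖deriv φ z‖ ^ 2 := by
  have h1 := hd.differentiableAt (hV.mem_nhds hz)
  have h2 : ‖deriv φ z‖ ^ 2 - (0 : ℝ) ^ 2 = ‖deriv φ z‖ ^ 2 := by ring
  rw [det_fderiv, dz_holo h1, dzb_holo h1, norm_zero, h2, abs_of_nonneg (by positivity)]

theorem has_phi (hV : IsOpen V) (hd : DifferentiableOn ℂ φ V) (S : Set ℂ) (hS : S ⊆ V) :
    ∀ z ∈ S, HasFDerivWithinAt φ (fderiv ℝ φ z) S z := by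
  intro z hz
  have h1 := hd.differentiableAt (hV.mem_nhds (hS hz))
  exact (h1.restrictScalars ℝ).hasFDerivAt.hasFDerivWithinAt

/-- change of variables -/
theorem cov (hV : IsOpen V) (hd : DifferentiableOn ℂ φ V) (hi : InjOn φ V) (g : ℂ → ℂ) :
    ∫ y in φ '' V, g y = ∫ z in V, ((‖deriv φ z‖ ^ 2 : ℝ) : ℂ) * g (φ z) := by
  rw [integral_image_eq_integral_abs_det_fderiv_smul volume hV.measurableSet (has_phi hV hd V le_rfl) hi]
  refine setIntegral_congr_fun hV.measurableSet ?_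
  intro z hz
  simp only
  rw [det_phi hV hd z hz, Complex.real_smul]

theorem l2_comp (hV : IsOpen V) (hd : DifferentiableOn ℂ φ V) (hi : InjOn φ V) (h0 : ∀ z ∈ V, deriv φ z ≠ 0)
    {U : Set ℂ} (hm : MapsTo φ V U) {a : ℂ → ℂ} (ha : L2 U a) : L2 V (fun z => a (φ z) * deriv φ z) := by
  intro K hK hKc
  have hKm := hKc.measurableSet
  have himg : IsCompact (φ '' K) := hKc.image_of_continuousOn (hd.continuousOn.mono hK)
  have h1 : MemLp a 2 (volume.restrict (φ '' K)) := ha _ (by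
    rintro _ ⟨z, hz, rfl⟩
    exact hm (hK hz)) himg
  have hfin : IsFiniteMeasure ((volume : Measure ℂ).restrict (φ '' K)) :=
    ⟨by rw [Measure.restrict_apply_univ]; exact himg.measure_lt_top⟩
  have h2 : IntegrableOn a (φ '' K) volume := h1.integrable (by norm_num)
  have hiK : InjOn φ K := hi.mono hK
  have h3 := (integrableOn_image_iff_integrableOn_abs_det_fderiv_smul volume hKm (has_phi hV hd K hK) hiK a).1 h2
  have hcont : ContinuousOn (fun z => (conj (deriv φ z))⁻¹) K := by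
    have h4 : ContinuousOn (deriv φ) K := (deriv_diff hV hd).continuousOn.mono hK
    refine ContinuousOn.inv₀ (Complex.continuous_conj.comp_continuousOn h4) ?_
    intro z hz h
    exact h0 z (hK hz) ((map_eq_zero (starRingEnd ℂ)).1 h)
  have hmeas : AEStronglyMeasurable (fun z => a (φ z) * deriv φ z) (volume.restrict K) := by
    have h4 := (hcont.aestronglyMeasurable hKm (μ := volume)).mul h3.aestronglyMeasurable
    refine h4.congr ?_
    refine (ae_restrict_iff' hKm).2 (ae_of_all _ fun z hz => ?_)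
    simp only [Pi.mul_apply]
    rw [det_phi hV hd z (hK hz), Complex.real_smul, ← Complex.normSq_eq_norm_sq, Complex.normSq_eq_conj_mul_self]
    have h5 : conj (deriv φ z) ≠ 0 := fun h => h0 z (hK hz) ((map_eq_zero (starRingEnd ℂ)).1 h)
    field_simp
  rw [memLp_two_iff_integrable_sq_norm hmeas]
  have h6 : IntegrableOn (fun y => ‖a y‖ ^ 2) (φ '' K) volume :=
    (memLp_two_iff_integrable_sq_norm h1.aestronglyMeasurable).1 h1
  have h7 := (integrableOn_image_iff_integrableOn_abs_det_fderiv_smul volume hKm (has_phi hV hd K hK) hiK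
    (fun y => ‖a y‖ ^ 2)).1 h6
  refine h7.congr ?_
  refine (ae_restrict_iff' hKm).2 (ae_of_all _ fun z hz => ?_)
  simp only
  rw [det_phi hV hd z (hK hz), norm_mul, smul_eq_mul]
  ring

theorem l2_conj (hV : IsOpen V) (hd : DifferentiableOn ℂ φ V) (h0 : ∀ z ∈ V, deriv φ z ≠ 0) {b : ℂ → ℂ}
    (h : L2 V (fun z => b (φ z) * deriv φ z)) : L2 V (fun z => b (φ z) * conj (deriv φ z)) := by
  intro K hK hKc
  have h1 := h K hK hKc
  have hKm := hKc.measurableSet
  have h4 : ContinuousOn (deriv φ) K := (deriv_diff hV hd).continuousOn.mono hK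
  have hcont : ContinuousOn (fun z => conj (deriv φ z) / deriv φ z) K :=
    (Complex.continuous_conj.comp_continuousOn h4).div h4 (fun z hz => h0 z (hK hz))
  have hmeas : AEStronglyMeasurable (fun z => b (φ z) * conj (deriv φ z)) (volume.restrict K) := by
    have h5 := (hcont.aestronglyMeasurable hKm (μ := volume)).mul h1.aestronglyMeasurable
    refine h5.congr ?_
    refine (ae_restrict_iff' hKm).2 (ae_of_all _ fun z hz => ?_)
    simp only [Pi.mul_apply]
    have h6 := h0 z (hK hz)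
    field_simp
  refine h1.of_le hmeas ?_
  refine ae_of_all _ fun z => ?_
  rw [norm_mul, norm_mul, RCLike.norm_conj]

/-- derivatives of `z ↦ η (φ z) * k z` where `k` is holomorphic -/
theorem dzb_push (hV : IsOpen V) (hd : DifferentiableOn ℂ φ V) {η k : ℂ → ℂ} (hη : Differentiable ℝ η)
    (hk : DifferentiableOn ℂ k V) (z : ℂ) (hz : z ∈ V) :
    dzb (fun x => η (φ x) * k x) z = dzb η (φ z) * conj (deriv φ z) * k z := by
  have h1 := hd.differentiableAt (hV.mem_nhds hz)
  have h2 := hk.differentiableAt (hV.mem_nhds hz)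
  have h3 : DifferentiableAt ℝ (fun x => η (φ x)) z := (hη (φ z)).comp z (h1.restrictScalars ℝ)
  rw [dzb_mul h3 (h2.restrictScalars ℝ), dzb_comp (hη (φ z)) (h1.restrictScalars ℝ), dz_holo h1, dzb_holo h1,
    dzb_holo h2]
  ring

theorem dz_push (hV : IsOpen V) (hd : DifferentiableOn ℂ φ V) {η k : ℂ → ℂ} (hη : Differentiable ℝ η)
    (hk : DifferentiableOn ℂ k V) (z : ℂ) (hz : z ∈ V) :
    dz (fun x => η (φ x) * conj (k x)) z = dz η (φ z) * deriv φ z * conj (k z) := by
  have h1 := hd.differentiableAt (hV.mem_nhds hz)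
  have h2 := hk.differentiableAt (hV.mem_nhds hz)
  have h3 : DifferentiableAt ℝ (fun x => η (φ x)) z := (hη (φ z)).comp z (h1.restrictScalars ℝ)
  have h4 : DifferentiableAt ℝ (fun x => conj (k x)) z :=
    (Complex.conjCLE : ℂ →L[ℝ] ℂ).differentiableAt.comp z (h2.restrictScalars ℝ)
  rw [dz_mul h3 h4, dz_comp (hη (φ z)) (h1.restrictScalars ℝ), dz_holo h1, dzb_holo h1,
    dz_conj (h2.restrictScalars ℝ), dzb_holo h2]
  simp

theorem dz_congr {f g : ℂ → ℂ} {z : ℂ} (h : f =ᶠ[𝓝 z] g) : dz f z = dz g z := by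
  unfold dz
  rw [h.fderiv_eq]

theorem dzb_congr {f g : ℂ → ℂ} {z : ℂ} (h : f =ᶠ[𝓝 z] g) : dzb f z = dzb g z := by
  unfold dzb
  rw [h.fderiv_eq]

theorem int_on {S : Set ℂ} {g : ℂ → ℂ} (h : ∀ z, z ∉ S → g z = 0) : ∫ z in S, g z = ∫ z, g z :=
  setIntegral_eq_integral_of_forall_compl_eq_zero h

end conf

theorem pPRW : Pool.Agent.Helper68.QC.StPRW := by
  intro U V f a b φ hU hV hd hi hm h0 hW
  have hY := img_open hV hd h0
  have hYU : φ '' V ⊆ U := by
    rintro _ ⟨z, hz, rfl⟩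
    exact hm hz
  have hdd := deriv_diff hV hd
  refine ⟨?_, l2_comp hV hd hi h0 hm hW.l2a, l2_conj hV hd h0 (l2_comp hV hd hi h0 hm hW.l2b), ?_, ?_⟩
  · exact hW.cont.comp hd.continuousOn hm
  · intro ψ hψ
    -- the transported test function
    have hk : ContDiffOn ℝ ∞ (fun z => (conj (deriv φ z))⁻¹) V := by
      have h1 : ContDiffOn ℝ ∞ (fun z => conj (deriv φ z)) V :=
        (Complex.conjCLE : ℂ →L[ℝ] ℂ).contDiff.comp_contDiffOn (smooth_of_holo hV hdd)
      refine h1.inv ?_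
      intro z hz h
      exact h0 z hz ((map_eq_zero (starRingEnd ℂ)).1 h)
    have hχ := tst_mul_on hV hψ hk
    set χ : ℂ → ℂ := fun z => ψ z * (conj (deriv φ z))⁻¹ with hχdef
    have hη := push_tst hV hd hi h0 χ hχ
    set η : ℂ → ℂ := push V φ χ with hηdef
    have hrel : ∀ z ∈ V, ψ z = η (φ z) * conj (deriv φ z) := by
      intro z hz
      rw [hηdef, push_apply hi χ z hz, hχdef]
      have h5 : conj (deriv φ z) ≠ 0 := fun h => h0 z hz ((map_eq_zero (starRingEnd ℂ)).1 h)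
      simp only
      rw [mul_assoc, inv_mul_cancel₀ h5, mul_one]
    have hdz : ∀ z ∈ V, dz ψ z = ((‖deriv φ z‖ ^ 2 : ℝ) : ℂ) * dz η (φ z) := by
      intro z hz
      have h1 : ψ =ᶠ[𝓝 z] fun x => η (φ x) * conj (deriv φ x) := by
        filter_upwards [hV.mem_nhds hz] with x hx
        exact hrel x hx
      rw [dz_congr h1, dz_push hV hd hη.differentiable hdd z hz, ← Complex.normSq_eq_norm_sq,
        Complex.normSq_eq_conj_mul_self]
      ring
    have e1 : ∫ z, f (φ z) * dz ψ z = ∫ z in V, f (φ z) * dz ψ z := by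
      refine (int_on ?_).symm
      intro z hz
      rw [dz_eq_zero (fun h => hz (hψ.sub h)), mul_zero]
    have e2 : ∫ z in V, f (φ z) * dz ψ z = ∫ z in V, ((‖deriv φ z‖ ^ 2 : ℝ) : ℂ) * (f (φ z) * dz η (φ z)) := by
      refine setIntegral_congr_fun hV.measurableSet ?_
      intro z hz
      simp only
      rw [hdz z hz]
      ring
    have e3 : ∫ y in φ '' V, f y * dz η y = ∫ y, f y * dz η y := by
      refine int_on ?_
      intro y hy
      rw [dz_eq_zero (fun h => hy (hη.sub h)), mul_zero]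
    have e4 : ∫ y in φ '' V, a y * η y = ∫ y, a y * η y := by
      refine int_on ?_
      intro y hy
      rw [image_eq_zero_of_notMem_tsupport (fun h => hy (hη.sub h)), mul_zero]
    have e5 : ∫ z in V, ((‖deriv φ z‖ ^ 2 : ℝ) : ℂ) * (a (φ z) * η (φ z)) = ∫ z in V, a (φ z) * deriv φ z * ψ z := by
      refine setIntegral_congr_fun hV.measurableSet ?_
      intro z hz
      simp only
      rw [hrel z hz, ← Complex.normSq_eq_norm_sq, Complex.normSq_eq_conj_mul_self]
      ring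
    have e6 : ∫ z, a (φ z) * deriv φ z * ψ z = ∫ z in V, a (φ z) * deriv φ z * ψ z := by
      refine (int_on ?_).symm
      intro z hz
      rw [image_eq_zero_of_notMem_tsupport (fun h => hz (hψ.sub h)), mul_zero]
    have e7 := hW.dz η (hη.mono hYU)
    rw [e1, e2, ← cov hV hd hi (fun y => f y * dz η y), e3, e7, ← e4, cov hV hd hi (fun y => a y * η y), e5, e6]
  · intro ψ hψ
    have hk : ContDiffOn ℝ ∞ (fun z => (deriv φ z)⁻¹) V := (smooth_of_holo hV hdd).inv h0
    have hχ := tst_mul_on hV hψ hk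
    set χ : ℂ → ℂ := fun z => ψ z * (deriv φ z)⁻¹ with hχdef
    have hη := push_tst hV hd hi h0 χ hχ
    set η : ℂ → ℂ := push V φ χ with hηdef
    have hrel : ∀ z ∈ V, ψ z = η (φ z) * deriv φ z := by
      intro z hz
      rw [hηdef, push_apply hi χ z hz, hχdef]
      simp only
      rw [mul_assoc, inv_mul_cancel₀ (h0 z hz), mul_one]
    have hdz : ∀ z ∈ V, dzb ψ z = ((‖deriv φ z‖ ^ 2 : ℝ) : ℂ) * dzb η (φ z) := by
      intro z hz
      have h1 : ψ =ᶠ[𝓝 z] fun x => η (φ x) * deriv φ x := by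
        filter_upwards [hV.mem_nhds hz] with x hx
        exact hrel x hx
      rw [dzb_congr h1, dzb_push hV hd hη.differentiable hdd z hz, ← Complex.normSq_eq_norm_sq,
        Complex.normSq_eq_conj_mul_self]
      ring
    have e1 : ∫ z, f (φ z) * dzb ψ z = ∫ z in V, f (φ z) * dzb ψ z := by
      refine (int_on ?_).symm
      intro z hz
      rw [dzb_eq_zero (fun h => hz (hψ.sub h)), mul_zero]
    have e2 : ∫ z in V, f (φ z) * dzb ψ z = ∫ z in V, ((‖deriv φ z‖ ^ 2 : ℝ) : ℂ) * (f (φ z) * dzb η (φ z)) := by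
      refine setIntegral_congr_fun hV.measurableSet ?_
      intro z hz
      simp only
      rw [hdz z hz]
      ring
    have e3 : ∫ y in φ '' V, f y * dzb η y = ∫ y, f y * dzb η y := by
      refine int_on ?_
      intro y hy
      rw [dzb_eq_zero (fun h => hy (hη.sub h)), mul_zero]
    have e4 : ∫ y in φ '' V, b y * η y = ∫ y, b y * η y := by
      refine int_on ?_
      intro y hy
      rw [image_eq_zero_of_notMem_tsupport (fun h => hy (hη.sub h)), mul_zero]
    have e5 : ∫ z in V, ((‖deriv φ z‖ ^ 2 : ℝ) : ℂ) * (b (φ z) * η (φ z)) =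
        ∫ z in V, b (φ z) * conj (deriv φ z) * ψ z := by
      refine setIntegral_congr_fun hV.measurableSet ?_
      intro z hz
      simp only
      rw [hrel z hz, ← Complex.normSq_eq_norm_sq, Complex.normSq_eq_conj_mul_self]
      ring
    have e6 : ∫ z, b (φ z) * conj (deriv φ z) * ψ z = ∫ z in V, b (φ z) * conj (deriv φ z) * ψ z := by
      refine (int_on ?_).symm
      intro z hz
      rw [image_eq_zero_of_notMem_tsupport (fun h => hz (hψ.sub h)), mul_zero]
    have e7 := hW.dzb η (hη.mono hYU)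
    rw [e1, e2, ← cov hV hd hi (fun y => f y * dzb η y), e3, e7, ← e4, cov hV hd hi (fun y => b y * η y), e5, e6]

end Pool.Agent.Helper70.QCM
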