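import Pool.Agent.Helper68.QC.St5

/-!
# PART M, module WSL: homeomorphisms which are `C¹` quasiconformal off the unit circle
-/

open Pool.Agent.Helper68.QC
open MeasureTheory Set Filter Topology Complex
open scoped ContDiff ComplexConjugate ENNReal

namespace Pool.Agent.Helper70.QCM

lemma isOpen_offS : IsOpen offS := isOpen_ne_fun continuous_norm continuous_const

lemma ae_offS : ∀ᵐ z : ℂ, z ∈ offS := by
  have h := Measure.addHaar_sphere (volume : Measure ℂ) (0 : ℂ) 1
  rw [ae_iff]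
  convert h using 2
  ext z
  simp [offS]

lemma contOn_dz_offS {W : ℂ → ℂ} (hW : ContDiffOn ℝ 1 W offS) : ContinuousOn (dz W) offS := by
  have hd : ∀ v : ℂ, ContinuousOn (fun z => fderiv ℝ W z v) offS := fun v =>
    (hW.continuousOn_fderiv_of_isOpen isOpen_offS le_rfl).clm_apply continuousOn_const
  exact ((hd 1).sub (continuousOn_const.mul (hd I))).div_const 2

lemma contOn_dzb_offS {W : ℂ → ℂ} (hW : ContDiffOn ℝ 1 W offS) : ContinuousOn (dzb W) offS := by
  have hd : ∀ v : ℂ, ContinuousOn (fun z => fderiv ℝ W z v) offS := fun v =>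
    (hW.continuousOn_fderiv_of_isOpen isOpen_offS le_rfl).clm_apply continuousOn_const
  exact ((hd 1).add (continuousOn_const.mul (hd I))).div_const 2

lemma aesm_of_offS {g : ℂ → ℂ} (hg : ContinuousOn g offS) :
    AEStronglyMeasurable g (volume : Measure ℂ) := by
  have h1 := hg.aestronglyMeasurable (μ := (volume : Measure ℂ)) isOpen_offS.measurableSet
  rwa [Measure.restrict_eq_self_of_ae_mem ae_offS] at h1

/-- the derivatives are locally square integrable -/
lemma L2_of {k : ℝ} {W g : ℂ → ℂ} (hk0 : 0 ≤ k) (hk : k < 1) (hWh : IsHomeomorph W)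
    (hW : ContDiffOn ℝ 1 W offS) (hq : ∀ z ∈ offS, dz W z ≠ 0 ∧ ‖dzb W z‖ ≤ k * ‖dz W z‖)
    (hg : ContinuousOn g offS) (hle : ∀ z ∈ offS, ‖g z‖ ≤ ‖dz W z‖) : L2 univ g := by
  intro K _ hK
  have hgm : AEStronglyMeasurable g (volume.restrict K) := (aesm_of_offS hg).restrict
  rw [memLp_two_iff_integrable_sq_norm hgm]
  have hKm : MeasurableSet (K ∩ offS) := hK.measurableSet.inter isOpen_offS.measurableSet
  have hfin : IntegrableOn (fun _ : ℂ => (1 : ℝ)) (W '' (K ∩ offS)) := by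
    refine integrableOn_const ?_ (by simp)
    exact ((measure_mono (image_mono inter_subset_left)).trans_lt
      (hK.image hWh.continuous).measure_lt_top).ne
  have hder : ∀ x ∈ K ∩ offS, HasFDerivWithinAt W (fderiv ℝ W x) (K ∩ offS) x := fun x hx =>
    ((hW.differentiableOn (by simp)).differentiableAt
      (isOpen_offS.mem_nhds hx.2)).hasFDerivAt.hasFDerivWithinAt
  have hint := (integrableOn_image_iff_integrableOn_abs_det_fderiv_smul volume hKm hder
    hWh.injective.injOn (fun _ => (1 : ℝ))).1 hfin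
  have h1k : 0 < 1 - k ^ 2 := by nlinarith
  have hint2 : IntegrableOn (fun z => ‖g z‖ ^ 2) (K ∩ offS) := by
    refine Integrable.mono' (hint.const_mul (1 / (1 - k ^ 2))) ?_ ?_
    · exact ((aesm_of_offS hg).restrict.norm.pow 2)
    · refine (ae_restrict_iff' hKm).2 (ae_of_all _ fun z hz => ?_)
      have h2 := hq z hz.2
      rw [det_fderiv, smul_eq_mul, mul_one, Real.norm_of_nonneg (by positivity)]
      have h3 : ‖dzb W z‖ ^ 2 ≤ k ^ 2 * ‖dz W z‖ ^ 2 := by
        rw [← mul_pow]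
        exact pow_le_pow_left₀ (norm_nonneg _) h2.2 2
      have h4 : ‖g z‖ ^ 2 ≤ ‖dz W z‖ ^ 2 := pow_le_pow_left₀ (norm_nonneg _) (hle z hz.2) 2
      have h5 : (1 - k ^ 2) * ‖dz W z‖ ^ 2 ≤ |‖dz W z‖ ^ 2 - ‖dzb W z‖ ^ 2| :=
        le_trans (by linarith) (le_abs_self _)
      refine h4.trans ?_
      rw [one_div, inv_mul_eq_div, le_div_iff₀ h1k]
      linarith
  have hset : (volume : Measure ℂ).restrict (K ∩ offS) = (volume : Measure ℂ).restrict K := by
    refine Measure.restrict_congr_set ?_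
    filter_upwards [ae_offS] with z hz
    exact propext ⟨fun h => h.1, fun h => ⟨h, hz⟩⟩
  unfold IntegrableOn at hint2
  rwa [hset] at hint2

lemma bel_sol (hRMV : StRMV) {k : ℝ} {W : ℂ → ℂ} (hk0 : 0 ≤ k) (hk : k < 1)
    (hWh : IsHomeomorph W) (hW : ContDiffOn ℝ 1 W offS)
    (hq : ∀ z ∈ offS, dz W z ≠ 0 ∧ ‖dzb W z‖ ≤ k * ‖dz W z‖) :
    Bel k (mu0 W) ∧ Sol (mu0 W) univ W := by
  classical
  refine ⟨⟨?_, fun z => ?_⟩, dz W, dzb W, ?_, ?_⟩
  · have h1 : ContinuousOn (fun z => dzb W z / dz W z) offS :=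
      (contOn_dzb_offS hW).div (contOn_dz_offS hW) fun z hz => (hq z hz).1
    have h2 := h1.measurable_piecewise (g := fun _ => (0 : ℂ)) continuousOn_const
      isOpen_offS.measurableSet
    convert h2 using 1
    ext z
    by_cases hz : ‖z‖ = 1
    · have hz' : z ∉ offS := fun h => h hz
      rw [piecewise_eq_of_notMem _ _ _ hz', mu0, if_pos hz]
    · have hz' : z ∈ offS := hz
      rw [piecewise_eq_of_mem _ _ _ hz', mu0, if_neg hz]
  · unfold mu0
    split_ifs with hz
    · simpa using hk0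
    · have h2 := hq z hz
      rw [norm_div, div_le_iff₀ (norm_pos_iff.2 h2.1)]
      exact h2.2
  · refine hRMV W _ _ hWh.continuous (wd_smoothOn isOpen_offS hW) ?_ ?_
    · exact L2_of hk0 hk hWh hW hq (contOn_dz_offS hW) fun z _ => le_rfl
    · refine L2_of hk0 hk hWh hW hq (contOn_dzb_offS hW) fun z hz => ?_
      refine (hq z hz).2.trans ?_
      nlinarith [norm_nonneg (dz W z)]
  · rw [Measure.restrict_univ]
    filter_upwards [ae_offS] with z hz
    have hz' : ‖z‖ ≠ 1 := hz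
    rw [mu0, if_neg hz', div_mul_cancel₀ _ (hq z hz).1]

theorem pWSL (hRMV : StRMV) (hUNI : StUNI) : Pool.Agent.Helper68.QC.StWSL := by
  intro k W hk0 hk hWh hW hq
  obtain ⟨hbel, hsol⟩ := bel_sol hRMV hk0 hk hWh hW hq
  refine ⟨hbel, hsol, ?_⟩
  have hc : W 1 - W 0 ≠ 0 := sub_ne_zero.2 fun h => one_ne_zero (hWh.injective h)
  set c := W 1 - W 0 with hcdef
  let w' : ℂ ≃ₜ ℂ := ((hWh.homeomorph W).trans (Homeomorph.addRight (-W 0))).trans
    (Homeomorph.mulLeft₀ c⁻¹ (inv_ne_zero hc))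
  have hw' : ∀ z, w' z = c⁻¹ * (W z - W 0) := fun z => by
    simp [w', sub_eq_add_neg]
  have hwf : (w' : ℂ → ℂ) = fun z => c⁻¹ * (W z - W 0) := funext hw'
  have hdiff : ∀ z ∈ offS, DifferentiableAt ℝ W z := fun z hz =>
    (hW.differentiableOn (by simp)).differentiableAt (isOpen_offS.mem_nhds hz)
  have hdz : ∀ z ∈ offS, dz w' z = c⁻¹ * dz W z := fun z hz => by
    have hd1 : DifferentiableAt ℝ (fun _ : ℂ => W 0) z := differentiableAt_const _
    have hd2 : DifferentiableAt ℝ (fun x => W x - W 0) z := (hdiff z hz).sub hd1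
    rw [hwf, dz_const_mul c⁻¹ hd2, dz_sub (hdiff z hz) hd1, dz_const, sub_zero]
  have hdzb : ∀ z ∈ offS, dzb w' z = c⁻¹ * dzb W z := fun z hz => by
    have hd1 : DifferentiableAt ℝ (fun _ : ℂ => W 0) z := differentiableAt_const _
    have hd2 : DifferentiableAt ℝ (fun x => W x - W 0) z := (hdiff z hz).sub hd1
    rw [hwf, dzb_const_mul c⁻¹ hd2, dzb_sub (hdiff z hz) hd1, dzb_const, sub_zero]
  have hmu : mu0 w' = mu0 W := by
    ext z
    unfold mu0
    split_ifs with hz
    · rfl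
    · rw [hdz z hz, hdzb z hz, mul_div_mul_left _ _ (inv_ne_zero hc)]
  have hW' : ContDiffOn ℝ 1 (w' : ℂ → ℂ) offS := by
    rw [hwf]
    exact contDiffOn_const.mul (hW.sub contDiffOn_const)
  have hsol' := (bel_sol hRMV (W := w') hk0 hk w'.isHomeomorph hW' (fun z hz => by
    rw [hdz z hz, hdzb z hz]
    refine ⟨mul_ne_zero (inv_ne_zero hc) (hq z hz).1, ?_⟩
    rw [norm_mul, norm_mul]
    have := (hq z hz).2
    have h0 := norm_nonneg (c⁻¹)
    nlinarith)).2
  rw [hmu] at hsol'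
  have key := hUNI k hk (mu0 W) hbel w' (by rw [hw']; simp)
    (by rw [hw', ← hcdef, inv_mul_cancel₀ hc]) ∅ finite_empty (by rwa [compl_empty])
  intro z
  rw [← key, hw', ← mul_assoc, mul_inv_cancel₀ hc]
  ring

end Pool.Agent.Helper70.QCM
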