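import Pool.Agent.Helper70.QCM.M_PRW

/-!
# PART M: cutoff functions, products with continuous functions
-/

open Pool.Agent.Helper68.QC
open MeasureTheory Set Filter Topology Complex
open scoped ContDiff ComplexConjugate ENNReal

namespace Pool.Agent.Helper70.QCM

/-- a cutoff function -/
theorem cutoff (W : Set ℂ) (hW : IsOpen W) (K : Set ℂ) (hK : IsCompact K) (hKW : K ⊆ W) :
    ∃ χ : ℂ → ℂ, Tst W χ ∧ ∃ N : Set ℂ, IsOpen N ∧ K ⊆ N ∧ N ⊆ W ∧ ∀ z ∈ N, χ z = 1 := by
  obtain ⟨T, hT, hKT, hTW⟩ := exists_compact_between hK hW hKW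
  obtain ⟨f, hf1, hf0, _⟩ := exists_contMDiffMap_one_nhds_of_subset_interior (n := (⊤ : ℕ∞)) (modelWithCornersSelf ℝ ℂ)
    hK.isClosed hKT
  have hsm : ContDiff ℝ ∞ (f : ℂ → ℝ) := contMDiff_iff_contDiff.1 f.contMDiff
  have hsm2 : ContDiff ℝ ∞ (fun z => ((f z : ℝ) : ℂ)) := Complex.ofRealCLM.contDiff.comp hsm
  have hzero : ∀ z, z ∉ T → ((f z : ℝ) : ℂ) = 0 := by
    intro z hz
    rw [hf0 z hz]
    simp
  obtain ⟨N, hN, hKN, hN1⟩ := mem_nhdsSet_iff_exists.1 hf1
  refine ⟨fun z => ((f z : ℝ) : ℂ), ⟨hsm2, HasCompactSupport.intro hT hzero, ?_⟩, N ∩ W, hN.inter hW,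
    subset_inter hKN hKW, inter_subset_right, ?_⟩
  · refine (closure_minimal ?_ hT.isClosed).trans hTW
    intro z hz
    by_contra h
    exact hz (hzero z h)
  · intro z hz
    have h1 : f z = 1 := hN1 hz.1
    simp only
    rw [h1]
    simp

theorem finK {K : Set ℂ} (hK : IsCompact K) : IsFiniteMeasure ((volume : Measure ℂ).restrict K) :=
  ⟨by rw [Measure.restrict_apply_univ]; exact hK.measure_lt_top⟩

theorem memLp_cont_mul {K : Set ℂ} (hK : IsCompact K) {h a : ℂ → ℂ} (hh : ContinuousOn h K)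
    (ha : MemLp a 2 (volume.restrict K)) : MemLp (fun z => h z * a z) 2 (volume.restrict K) := by
  obtain ⟨C, hC⟩ := hK.exists_bound_of_continuousOn hh
  refine ha.of_le_mul (c := C) ((hh.aestronglyMeasurable hK.measurableSet).mul ha.aestronglyMeasurable) ?_
  refine (ae_restrict_iff' hK.measurableSet).2 (ae_of_all _ fun z hz => ?_)
  rw [norm_mul]
  exact mul_le_mul_of_nonneg_right (hC z hz) (norm_nonneg _)

theorem memLp_conj {K : Set ℂ} {a : ℂ → ℂ} (ha : MemLp a 2 (volume.restrict K)) :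
    MemLp (fun z => conj (a z)) 2 (volume.restrict K) := by
  refine ha.of_le (Complex.continuous_conj.comp_aestronglyMeasurable ha.aestronglyMeasurable) ?_
  refine ae_of_all _ fun z => ?_
  rw [RCLike.norm_conj]

theorem memLp_cont {K : Set ℂ} (hK : IsCompact K) {h : ℂ → ℂ} (hh : ContinuousOn h K) :
    MemLp h 2 (volume.restrict K) := L2.of_continuousOn hh K le_rfl hK

/-- passing to the limit in the integration by parts formula -/
theorem core (hTRI : StTRI) (K : Set ℂ) (hK : IsCompact K) (φ ψ : ℂ → ℂ) (hφ : Continuous φ) (hψ : Continuous ψ)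
    (hφ0 : ∀ z, z ∉ K → φ z = 0) (hψ0 : ∀ z, z ∉ K → ψ z = 0) (H0 H1 H2 : ℂ → ℂ) (u0 : UniformContinuous H0)
    (u1 : UniformContinuous H1) (u2 : UniformContinuous H2) (g : ℕ → ℂ → ℂ) (w : ℂ → ℂ) (hg : ∀ n, Continuous (g n))
    (hw : ContinuousOn w K) (hlim : TendstoUniformlyOn g w atTop K) (p q : ℕ → ℂ → ℂ) (p' q' : ℂ → ℂ)
    (hp : ∀ n, Continuous (p n)) (hq : ∀ n, Continuous (q n)) (hp' : MemLp p' 2 (volume.restrict K))
    (hq' : MemLp q' 2 (volume.restrict K))
    (lp : Tendsto (fun n => eLpNorm (fun z => p n z - p' z) 2 (volume.restrict K)) atTop (𝓝 0))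
    (lq : Tendsto (fun n => eLpNorm (fun z => q n z - q' z) 2 (volume.restrict K)) atTop (𝓝 0))
    (hid : ∀ n, ∫ z, H0 (g n z) * ψ z = - ∫ z, (H1 (g n z) * p n z + H2 (g n z) * conj (q n z)) * φ z) :
    ∫ z, H0 (w z) * ψ z = - ∫ z, (H1 (w z) * p' z + H2 (w z) * conj (q' z)) * φ z := by
  have hKm := hK.measurableSet
  have := finK hK
  have c0 := u0.continuous
  have c1 := u1.continuous
  have c2 := u2.continuous
  have hconst : ∀ s : ℂ → ℂ, Tendsto (fun _ : ℕ => eLpNorm (fun z => s z - s z) 2 (volume.restrict K)) atTop (𝓝 0) := by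
    intro s
    simp
  have t0 := hTRI K (fun n => H0 ∘ g n) (fun _ => ψ) (fun _ _ => 1) (H0 ∘ w) ψ (fun _ => 1) hK
    (fun n => (c0.comp (hg n)).continuousOn) (c0.comp_continuousOn hw) (u0.comp_tendstoUniformlyOn hlim)
    (fun _ => memLp_cont hK hψ.continuousOn) (memLp_cont hK hψ.continuousOn)
    (fun _ => memLp_cont hK continuousOn_const) (memLp_cont hK continuousOn_const) (hconst ψ) (hconst _)
  have t1 := hTRI K (fun n => H1 ∘ g n) p (fun _ => φ) (H1 ∘ w) p' φ hK
    (fun n => (c1.comp (hg n)).continuousOn) (c1.comp_continuousOn hw) (u1.comp_tendstoUniformlyOn hlim)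
    (fun n => memLp_cont hK (hp n).continuousOn) hp'
    (fun _ => memLp_cont hK hφ.continuousOn) (memLp_cont hK hφ.continuousOn) lp (hconst φ)
  have lq' : Tendsto (fun n => eLpNorm (fun z => conj (q n z) - conj (q' z)) 2 (volume.restrict K)) atTop (𝓝 0) := by
    refine lq.congr fun n => ?_
    refine eLpNorm_congr_norm_ae (ae_of_all _ fun z => ?_)
    rw [← map_sub, RCLike.norm_conj]
  have t2 := hTRI K (fun n => H2 ∘ g n) (fun n z => conj (q n z)) (fun _ => φ) (H2 ∘ w) (fun z => conj (q' z)) φ hK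
    (fun n => (c2.comp (hg n)).continuousOn) (c2.comp_continuousOn hw) (u2.comp_tendstoUniformlyOn hlim)
    (fun n => memLp_cont hK (Complex.continuous_conj.comp (hq n)).continuousOn) (memLp_conj hq')
    (fun _ => memLp_cont hK hφ.continuousOn) (memLp_cont hK hφ.continuousOn) lq' (hconst φ)
  have e0 : ∀ (h : ℂ → ℂ), ∫ z, H0 (h z) * ψ z = ∫ z in K, (H0 ∘ h) z * ψ z * 1 := by
    intro h
    have h1 : ∫ z in K, (H0 ∘ h) z * ψ z * 1 = ∫ z, (H0 ∘ h) z * ψ z * 1 := int_on (fun z hz => by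
      rw [hψ0 z hz]
      simp)
    rw [h1]
    simp
  have e1 : ∀ (h r s : ℂ → ℂ), ContinuousOn h K → MemLp r 2 (volume.restrict K) → MemLp s 2 (volume.restrict K) →
      ∫ z, (H1 (h z) * r z + H2 (h z) * conj (s z)) * φ z =
      (∫ z in K, (H1 ∘ h) z * r z * φ z) + ∫ z in K, (H2 ∘ h) z * conj (s z) * φ z := by
    intro h r s hh hr hs
    have h1 : ∫ z, (H1 (h z) * r z + H2 (h z) * conj (s z)) * φ z =
        ∫ z in K, (H1 (h z) * r z + H2 (h z) * conj (s z)) * φ z := (int_on (fun z hz => by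
      rw [hφ0 z hz]
      simp)).symm
    have i1 : IntegrableOn (fun z => (H1 ∘ h) z * r z * φ z) K volume := by
      have h2 := memLp_cont_mul hK (c1.comp_continuousOn hh) hr
      exact IntegrableOn.mul_continuousOn (h2.integrable (by norm_num)) hφ.continuousOn hK
    have i2 : IntegrableOn (fun z => (H2 ∘ h) z * conj (s z) * φ z) K volume := by
      have h2 := memLp_cont_mul hK (c2.comp_continuousOn hh) (memLp_conj hs)
      exact IntegrableOn.mul_continuousOn (h2.integrable (by norm_num)) hφ.continuousOn hK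
    rw [h1, ← integral_add i1 i2]
    refine integral_congr_ae (ae_of_all _ fun z => ?_)
    simp only [Function.comp_apply]
    ring
  have hl : Tendsto (fun n => ∫ z, H0 (g n z) * ψ z) atTop (𝓝 (∫ z, H0 (w z) * ψ z)) := by
    rw [e0 w]
    refine t0.congr fun n => ?_
    rw [e0 (g n)]
  have hr : Tendsto (fun n => - ∫ z, (H1 (g n z) * p n z + H2 (g n z) * conj (q n z)) * φ z) atTop
      (𝓝 (- ∫ z, (H1 (w z) * p' z + H2 (w z) * conj (q' z)) * φ z)) := by
    rw [e1 w p' q' hw hp' hq']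
    refine ((t1.add t2).neg).congr fun n => ?_
    rw [e1 (g n) (p n) (q n) (hg n).continuousOn (memLp_cont hK (hp n).continuousOn)
      (memLp_cont hK (hq n).continuousOn)]
  have hl' : Tendsto (fun n => ∫ z, H0 (g n z) * ψ z) atTop
      (𝓝 (- ∫ z, (H1 (w z) * p' z + H2 (w z) * conj (q' z)) * φ z)) := hr.congr fun n => (hid n).symm
  exact tendsto_nhds_unique hl hl'

end Pool.Agent.Helper70.QCM
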